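import Mathlib

/-! A finite certificate for the coprimality of a tuple of polynomials. -/

namespace Pool.Agent.Run7.h942.DD

open Polynomial in
theorem gauss_cert {B : Type*} [CommRing B] [IsDomain B] [UniqueFactorizationMonoid B] {ι : Type*}
    [Fintype ι] (G : ι → B[X]) (hG : ∀ q, (∀ i, q ∣ G i) → IsUnit q) :
    ∃ (A : ι → B[X]) (r : B), r ≠ 0 ∧ ∑ i, A i * G i = C r := by
  classical
  let Q := FractionRing B
  have hinj : Function.Injective (algebraMap B Q) := IsFractionRing.injective B Q
  let g : ι → Q[X] := fun i => (G i).map (algebraMap B Q)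
  let I : Ideal Q[X] := Ideal.span (Set.range g)
  obtain ⟨c, hc⟩ := (IsPrincipalIdealRing.principal I).principal
  have hcI : c ∈ I := by rw [hc]; exact Submodule.mem_span_singleton_self c
  have hcd : ∀ i, c ∣ g i := by
    intro i
    have : g i ∈ I := Ideal.subset_span ⟨i, rfl⟩
    rw [hc] at this
    exact Ideal.mem_span_singleton.mp this
  have hc0 : c ≠ 0 := by
    rintro rfl
    have h0 : ∀ i, G i = 0 := by
      intro i
      have := zero_dvd_iff.mp (hcd i)
      exact (Polynomial.map_eq_zero_iff hinj).mp this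
    exact not_isUnit_zero (hG 0 fun i => by rw [h0 i])
  obtain ⟨nm⟩ : Nonempty (NormalizedGCDMonoid B) := inferInstance
  obtain ⟨b, hb, hbe⟩ := IsLocalization.integerNormalization_spec (nonZeroDivisors B) c
  set c0 := IsLocalization.integerNormalization (nonZeroDivisors B) c with hc0def
  have hb0 : b ≠ 0 := nonZeroDivisors.ne_zero hb
  have hbQ : (algebraMap B Q b) ≠ 0 := (map_ne_zero_iff _ hinj).mpr hb0
  have hc00 : c0 ≠ 0 := by
    intro h0
    rw [h0, Polynomial.map_zero] at hbe
    have h1 : b • c = C (algebraMap B Q b) * c := by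
      rw [Algebra.smul_def]; rfl
    rw [h1] at hbe
    exact mul_ne_zero (C_ne_zero.mpr hbQ) hc0 hbe.symm
  have hp : c0.primPart.IsPrimitive := isPrimitive_primPart c0
  have hcont : (algebraMap B Q c0.content) ≠ 0 :=
    (map_ne_zero_iff _ hinj).mpr (mt content_eq_zero_iff.mp hc00)
  have hmap : C (algebraMap B Q b) * c = C (algebraMap B Q c0.content) *
      c0.primPart.map (algebraMap B Q) := by
    have h1 : b • c = C (algebraMap B Q b) * c := by
      rw [Algebra.smul_def]; rfl
    rw [← h1, ← hbe]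
    conv_lhs => rw [c0.eq_C_content_mul_primPart]
    rw [Polynomial.map_mul, Polynomial.map_C]
  have hpd : ∀ i, c0.primPart ∣ G i := by
    intro i
    apply hp.dvd_of_fraction_map_dvd_fraction_map (K := Q)
    have h1 : c0.primPart.map (algebraMap B Q) ∣ C (algebraMap B Q b) * c := by
      rw [hmap]; exact Dvd.intro_left _ rfl
    have hu : IsUnit (C (algebraMap B Q b)) := isUnit_C.mpr (isUnit_iff_ne_zero.mpr hbQ)
    have h2 : c0.primPart.map (algebraMap B Q) ∣ c := (hu.dvd_mul_left).mp h1
    exact h2.trans (hcd i)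
  have hunit : IsUnit c0.primPart := hG _ hpd
  have hcu : IsUnit c := by
    have h1 : IsUnit (C (algebraMap B Q c0.content) * c0.primPart.map (algebraMap B Q)) :=
      (isUnit_C.mpr (isUnit_iff_ne_zero.mpr hcont)).mul (hunit.map (mapRingHom (algebraMap B Q)))
    rw [← hmap] at h1
    exact isUnit_of_mul_isUnit_right h1
  have hI1 : (1 : Q[X]) ∈ I := by
    have : I = ⊤ := Ideal.eq_top_of_isUnit_mem _ hcI hcu
    rw [this]; trivial
  obtain ⟨a, ha⟩ := (Ideal.mem_span_range_iff_exists_fun).mp hI1
  -- clear denominators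
  choose d hd hde using fun i =>
    IsLocalization.integerNormalization_spec (nonZeroDivisors B) (a i)
  have hd0 : ∀ i, d i ≠ 0 := fun i => nonZeroDivisors.ne_zero (hd i)
  refine ⟨fun i => C (∏ j ∈ Finset.univ.erase i, d j) *
    IsLocalization.integerNormalization (nonZeroDivisors B) (a i), ∏ j, d j,
    Finset.prod_ne_zero_iff.mpr fun j _ => hd0 j, ?_⟩
  apply Polynomial.map_injective _ hinj
  rw [Polynomial.map_sum, Polynomial.map_C, map_prod]
  have h1 : ∀ i ∈ Finset.univ, Polynomial.map (algebraMap B Q)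
      (C (∏ j ∈ Finset.univ.erase i, d j) *
        IsLocalization.integerNormalization (nonZeroDivisors B) (a i) * G i) =
      C (∏ j, algebraMap B Q (d j)) * (a i * g i) := by
    intro i _
    rw [Polynomial.map_mul, Polynomial.map_mul, hde i, Polynomial.map_C, map_prod,
      ← Finset.mul_prod_erase Finset.univ (fun j => algebraMap B Q (d j)) (Finset.mem_univ i),
      C_mul]
    have h2 : d i • a i = C (algebraMap B Q (d i)) * a i := by
      rw [Algebra.smul_def]; rfl
    rw [h2]
    ring
  rw [Finset.sum_congr rfl h1, ← Finset.mul_sum, ha, mul_one]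

open MvPolynomial

theorem cert_j {K : Type*} [Field K] {N : ℕ} {ι : Type*} [Fintype ι]
    (G : ι → MvPolynomial (Fin (N + 1)) K) (hG : ∀ q, (∀ i, q ∣ G i) → IsUnit q)
    (j : Fin (N + 1)) : ∃ (A : ι → MvPolynomial (Fin (N + 1)) K)
      (R : MvPolynomial (Fin (N + 1)) K), R ≠ 0 ∧ degreeOf j R = 0 ∧ ∑ i, A i * G i = R := by
  let e : MvPolynomial (Fin (N + 1)) K ≃ₐ[K] Polynomial (MvPolynomial (Fin N) K) :=
    (renameEquiv K (Equiv.swap 0 j)).trans (finSuccEquiv K N)
  obtain ⟨A, r, hr, hA⟩ := gauss_cert (fun i => e (G i)) (by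
    intro q hq
    have h1 : IsUnit (e.symm q) := by
      apply hG
      intro i
      obtain ⟨c, hc⟩ := hq i
      refine ⟨e.symm c, ?_⟩
      rw [← map_mul, ← hc, AlgEquiv.symm_apply_apply]
    have h2 := h1.map e
    rwa [AlgEquiv.apply_symm_apply] at h2)
  refine ⟨fun i => e.symm (A i), e.symm (Polynomial.C r), ?_, ?_, ?_⟩
  · rw [Ne, map_eq_zero_iff _ e.symm.injective]
    exact Polynomial.C_ne_zero.mpr hr
  · have h1 : e (e.symm (Polynomial.C r)) = Polynomial.C r := AlgEquiv.apply_symm_apply _ _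
    have h2 : finSuccEquiv K N (rename (Equiv.swap 0 j) (e.symm (Polynomial.C r))) =
        Polynomial.C r := h1
    have h3 := natDegree_finSuccEquiv (rename (Equiv.swap 0 j) (e.symm (Polynomial.C r)))
    rw [h2, Polynomial.natDegree_C] at h3
    have h4 := degreeOf_rename_of_injective (p := e.symm (Polynomial.C r))
      (Equiv.swap (0 : Fin (N + 1)) j).injective j
    rw [Equiv.swap_apply_right] at h4
    rw [← h4, ← h3]
  · apply e.injective
    rw [map_sum, AlgEquiv.apply_symm_apply, ← hA]
    refine Finset.sum_congr rfl fun i _ => ?_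
    rw [map_mul, AlgEquiv.apply_symm_apply]

/-- clearing denominators -/
theorem clear {S : Type*} [CommRing S] [IsDomain S] {σ : Type*}
    (p : MvPolynomial σ (FractionRing S)) : ∃ (b : S) (p' : MvPolynomial σ S), b ≠ 0 ∧
      map (algebraMap S (FractionRing S)) p' = C (algebraMap S (FractionRing S) b) * p := by
  induction p using MvPolynomial.induction_on' with
  | monomial u c =>
    obtain ⟨a, b, hb, rfl⟩ := IsFractionRing.div_surjective (A := S) c
    have hb0 : b ≠ 0 := nonZeroDivisors.ne_zero hb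
    refine ⟨b, monomial u a, hb0, ?_⟩
    rw [map_monomial, C_mul_monomial]
    congr 1
    rw [mul_div_cancel₀]
    exact (map_ne_zero_iff _ (IsFractionRing.injective S (FractionRing S))).mpr hb0
  | add p q hp hq =>
    obtain ⟨b, p', hb, hp'⟩ := hp
    obtain ⟨c, q', hc, hq'⟩ := hq
    refine ⟨b * c, C c * p' + C b * q', mul_ne_zero hb hc, ?_⟩
    rw [map_add, map_mul, map_mul, hp', hq', map_C, map_C, map_mul, C_mul]
    ring

theorem clear_fin {S : Type*} [CommRing S] [IsDomain S] {σ ι : Type*} [Fintype ι]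
    (p : ι → MvPolynomial σ (FractionRing S)) : ∃ (b : S) (p' : ι → MvPolynomial σ S), b ≠ 0 ∧
      ∀ i, map (algebraMap S (FractionRing S)) (p' i) =
        C (algebraMap S (FractionRing S) b) * p i := by
  classical
  choose b p' hb hp' using fun i => clear (p i)
  refine ⟨∏ j, b j, fun i => C (∏ j ∈ Finset.univ.erase i, b j) * p' i,
    Finset.prod_ne_zero_iff.mpr fun j _ => hb j, fun i => ?_⟩
  rw [map_mul, map_C, hp' i, ← mul_assoc, ← C_mul, ← map_mul,
    ← Finset.mul_prod_erase Finset.univ b (Finset.mem_univ i), mul_comm (b i)]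

theorem degreeOf_map_le' {S L σ : Type*} [CommSemiring S] [CommSemiring L] (θ : S →+* L)
    (R : MvPolynomial σ S) (j : σ) : degreeOf j (map θ R) ≤ degreeOf j R := by
  rw [degreeOf_le_iff]
  intro m hm
  exact monomial_le_degreeOf j (support_map_subset _ _ hm)

theorem degreeOf_map_inj {S L σ : Type*} [CommSemiring S] [CommSemiring L] {θ : S →+* L}
    (hθ : Function.Injective θ) (R : MvPolynomial σ S) (j : σ) :
    degreeOf j R ≤ degreeOf j (map θ R) := by
  rw [degreeOf_le_iff]
  intro m hm
  refine monomial_le_degreeOf j ?_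
  rw [mem_support_iff, coeff_map]
  rw [mem_support_iff] at hm
  exact fun h => hm (hθ (by rw [h, map_zero]))

/-- coprimality of a tuple specialises outside a proper closed set -/
theorem generic_coprime {S : Type*} [CommRing S] [IsDomain S] {N : ℕ} {ι : Type*} [Fintype ι]
    (G : ι → MvPolynomial (Fin (N + 1)) S)
    (hG : ∀ q, (∀ i, q ∣ map (algebraMap S (FractionRing S)) (G i)) → IsUnit q) :
    ∃ s : S, s ≠ 0 ∧ ∀ {L : Type*} [Field L] (θ : S →+* L), θ s ≠ 0 →
      ∀ q, (∀ i, q ∣ map θ (G i)) → IsUnit q := by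
  classical
  have key : ∀ j : Fin (N + 1), ∃ (A : ι → MvPolynomial (Fin (N + 1)) S)
      (R : MvPolynomial (Fin (N + 1)) S), R ≠ 0 ∧ degreeOf j R = 0 ∧ ∑ i, A i * G i = R := by
    intro j
    obtain ⟨A, R, hR, hRj, hA⟩ := cert_j _ hG j
    obtain ⟨b, A', hb, hA'⟩ := clear_fin A
    have hinj : Function.Injective (algebraMap S (FractionRing S)) := IsFractionRing.injective _ _
    have hmi : Function.Injective (map (σ := Fin (N + 1)) (algebraMap S (FractionRing S))) :=
      map_injective _ hinj
    have hb' : algebraMap S (FractionRing S) b ≠ 0 := (map_ne_zero_iff _ hinj).mpr hb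
    have e : map (algebraMap S (FractionRing S)) (∑ i, A' i * G i) =
        C (algebraMap S (FractionRing S) b) * R := by
      rw [map_sum, ← hA, Finset.mul_sum]
      refine Finset.sum_congr rfl fun i _ => ?_
      rw [map_mul, hA' i, mul_assoc]
    refine ⟨A', ∑ i, A' i * G i, ?_, ?_, rfl⟩
    · intro h0
      rw [h0, map_zero] at e
      exact mul_ne_zero (by simpa using hb') hR e.symm
    · have h1 : degreeOf j (map (algebraMap S (FractionRing S)) (∑ i, A' i * G i)) = 0 := by
        rw [e]
        have := degreeOf_C_mul_le R j (algebraMap S (FractionRing S) b)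
        omega
      have h2 := degreeOf_map_inj hinj (∑ i, A' i * G i) j
      omega
  choose A R hR hRj hA using key
  have hm : ∀ j, ∃ m, coeff m (R j) ≠ 0 := fun j => exists_coeff_ne_zero (hR j)
  choose m hm using hm
  refine ⟨∏ j, coeff (m j) (R j), Finset.prod_ne_zero_iff.mpr fun j _ => hm j, ?_⟩
  intro L _ θ hθ q hq
  rw [map_prod] at hθ
  have hθj : ∀ j, θ (coeff (m j) (R j)) ≠ 0 := fun j =>
    (Finset.prod_ne_zero_iff.mp hθ) j (Finset.mem_univ j)
  have hRθ : ∀ j, map θ (R j) ≠ 0 := by
    intro j h0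
    apply hθj j
    rw [← coeff_map, h0, coeff_zero]
  have hqR : ∀ j, q ∣ map θ (R j) := by
    intro j
    rw [← hA j, map_sum]
    refine Finset.dvd_sum fun i _ => ?_
    rw [map_mul]
    exact Dvd.dvd.mul_left (hq i) _
  have hq0 : q ≠ 0 := by
    rintro rfl
    exact hRθ 0 (zero_dvd_iff.mp (hqR 0))
  have hdeg : ∀ j, degreeOf j q = 0 := by
    intro j
    obtain ⟨c, hc⟩ := hqR j
    have hc0 : c ≠ 0 := by
      rintro rfl
      rw [mul_zero] at hc
      exact hRθ j hc
    have h1 : degreeOf j (map θ (R j)) ≤ degreeOf j (R j) := degreeOf_map_le' θ _ j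
    rw [hc, degreeOf_mul_eq hq0 hc0, hRj j] at h1
    omega
  have hqC : q = C (coeff 0 q) := by
    rw [← totalDegree_eq_zero_iff_eq_C]
    rw [totalDegree_eq_zero_iff]
    intro m' hm' x
    have := monomial_le_degreeOf x hm'
    rw [hdeg x] at this
    omega
  rw [hqC]
  refine IsUnit.map C (isUnit_iff_ne_zero.mpr ?_)
  intro h0
  rw [h0, C_0] at hqC
  exact hq0 hqC

end Pool.Agent.Run7.h942.DD
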