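import Pool.Agent.Run7.h942.DD.Spec

/-! Dynamical degrees drop by a fixed amount only on a proper closed set of parameters. -/

namespace Pool.Agent.Run7.h942.DD

open MvPolynomial Filter Topology Pool.Agent.Helper993.CS

/-- growth: if `D(n)^(1/n) → δ` and `0 < a < δ`, then for some `n ≥ 1` all the ratios
`D(n(j+1))/D(nj)`, `j < N`, are at least `a^n/γ` -/
theorem growth {D : ℕ → ℕ} (hpos : ∀ n, 0 < D n) {δ : ℝ}
    (hδ : Tendsto (fun n : ℕ => (D n : ℝ) ^ ((1 : ℝ) / n)) atTop (𝓝 δ)) {a γ : ℝ} (ha : 0 < a)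
    (haδ : a < δ) (hγ : 0 < γ) (N : ℕ) :
    ∃ n : ℕ, 0 < n ∧ ∀ j < N, a ^ n * D (n * j) ≤ γ * D (n * (j + 1)) := by
  have hδ0 : 0 < δ := ha.trans haδ
  have hD : ∀ n, (0 : ℝ) < D n := fun n => by exact_mod_cast hpos n
  have hlog : Tendsto (fun n : ℕ => (1 : ℝ) / n * Real.log (D n)) atTop (𝓝 (Real.log δ)) := by
    have h1 := (Real.continuousAt_log hδ0.ne').tendsto.comp hδ
    refine h1.congr fun n => ?_
    simp only [Function.comp_apply]
    rw [Real.log_rpow (hD n)]
  have hj : ∀ j : ℕ, Tendsto (fun n : ℕ => (1 : ℝ) / n * Real.log (D (n * j))) atTop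
      (𝓝 (j * Real.log δ)) := by
    intro j
    rcases Nat.eq_zero_or_pos j with rfl | hj
    · simpa using (tendsto_one_div_atTop_nhds_zero_nat (𝕜 := ℝ)).mul_const (Real.log (D 0))
    · have h1 : Tendsto (fun n : ℕ => n * j) atTop atTop :=
        tendsto_id.atTop_mul_const' hj
      have h2 := (hlog.comp h1).const_mul (j : ℝ)
      refine h2.congr fun n => ?_
      simp only [Function.comp_apply]
      have hj' : (j : ℝ) ≠ 0 := by exact_mod_cast hj.ne'
      push_cast
      rcases Nat.eq_zero_or_pos n with rfl | hn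
      · simp
      · have hn' : (n : ℝ) ≠ 0 := by exact_mod_cast hn.ne'
        field_simp
  have hev : ∀ j : ℕ, ∀ᶠ n : ℕ in atTop, Real.log a + (1 : ℝ) / n * Real.log (D (n * j)) ≤
      1 / n * Real.log γ + (1 : ℝ) / n * Real.log (D (n * (j + 1))) := by
    intro j
    have h1 : Tendsto (fun n : ℕ => Real.log a + (1 : ℝ) / n * Real.log (D (n * j))) atTop
        (𝓝 (Real.log a + j * Real.log δ)) := (hj j).const_add _
    have h2 : Tendsto (fun n : ℕ => 1 / n * Real.log γ +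
        (1 : ℝ) / n * Real.log (D (n * (j + 1)))) atTop
        (𝓝 (0 * Real.log γ + ((j + 1 : ℕ) : ℝ) * Real.log δ)) :=
      ((tendsto_one_div_atTop_nhds_zero_nat (𝕜 := ℝ)).mul_const _).add (hj (j + 1))
    have h3 : Real.log a + j * Real.log δ < 0 * Real.log γ + ((j + 1 : ℕ) : ℝ) * Real.log δ := by
      have := Real.log_lt_log ha haδ
      push_cast
      linarith
    exact (h1.eventually_lt h2 h3).mono fun n hn => hn.le
  have hall : ∀ᶠ n : ℕ in atTop, 0 < n ∧ ∀ j < N,
      Real.log a + (1 : ℝ) / n * Real.log (D (n * j)) ≤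
      1 / n * Real.log γ + (1 : ℝ) / n * Real.log (D (n * (j + 1))) := by
    refine (eventually_gt_atTop 0).and ?_
    have := (Finset.eventually_all (Finset.range N)).mpr fun j (_ : j ∈ Finset.range N) => hev j
    exact this.mono fun n hn j hj => hn j (Finset.mem_range.mpr hj)
  obtain ⟨n, hn, hn'⟩ := hall.exists
  refine ⟨n, hn, fun j hj => ?_⟩
  have h1 := hn' j hj
  have hn0 : (0 : ℝ) < n := by exact_mod_cast hn
  have h2 : (n : ℝ) * Real.log a + Real.log (D (n * j)) ≤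
      Real.log γ + Real.log (D (n * (j + 1))) := by
    have h3 := mul_le_mul_of_nonneg_left h1 hn0.le
    have h4 : (n : ℝ) * (Real.log a + (1 : ℝ) / n * Real.log (D (n * j))) =
        n * Real.log a + Real.log (D (n * j)) := by field_simp
    have h5 : (n : ℝ) * (1 / n * Real.log γ + (1 : ℝ) / n * Real.log (D (n * (j + 1)))) =
        Real.log γ + Real.log (D (n * (j + 1))) := by field_simp
    rw [h4, h5] at h3
    exact h3
  rw [← Real.log_le_log_iff (mul_pos (pow_pos ha n) (hD _)) (mul_pos hγ (hD _)),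
    Real.log_mul (pow_pos ha n).ne' (hD _).ne', Real.log_mul hγ.ne' (hD _).ne', Real.log_pow]
  exact h2

/-- existence and uniqueness of the dynamical degree -/
theorem dynDeg_exists (N : ℕ) (hN : 1 ≤ N) {K : Type} [Field K] [Infinite K]
    (G : Fin (N + 1) → MvPolynomial (Fin (N + 1)) K) (e : ℕ) (hG : IsDomRatMap G e) :
    ∃ δ : ℝ, HasDynDeg G δ ∧ ∀ δ', HasDynDeg G δ' → δ' = δ := by
  obtain ⟨γ, hγ, hmain⟩ := main_inf.{0} N hN
  obtain ⟨D, hpos, hD, δ, hδ, -⟩ := hmain K e G hG.homog hG.dominant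
  refine ⟨δ, ⟨D, fun n => (hD n).1, hδ⟩, ?_⟩
  rintro δ' ⟨deg, hdeg, hlim⟩
  have : deg = D := funext fun n => (hD n).2 _ (hdeg n)
  subst this
  exact tendsto_nhds_unique hlim hδ

/-- the main theorem: existence of the dynamical degree, and the closed set of parameters outside
of which it drops by less than `ε` -/
theorem no_drop (N : ℕ) (hN : 1 ≤ N) (k : ℕ)
    (F : Fin (N + 1) → MvPolynomial (Fin (N + 1)) (CT k)) (d : ℕ) (hF : IsDomRatMap F d) :
    ∃ δ : ℝ, HasDynDeg F δ ∧ (∀ δ', HasDynDeg F δ' → δ' = δ) ∧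
      ∀ ε : ℝ, 0 < ε → ∃ q : MvPolynomial (Fin k) ℂ, q ≠ 0 ∧
        ∀ (t : Fin k → ℂ) (G : Fin (N + 1) → MvPolynomial (Fin (N + 1)) ℂ) (e : ℕ) (δ' : ℝ),
          IsMember t F G e → HasDynDeg G δ' → δ' ≤ δ - ε → eval t q = 0 := by
  classical
  obtain ⟨γ, hγ, hmain⟩ := main_inf.{0} N hN
  obtain ⟨D, hpos, hD, δ, hδ, -⟩ := hmain (CT k) d F hF.homog hF.dominant
  have huniq : ∀ δ', HasDynDeg F δ' → δ' = δ := by
    rintro δ' ⟨deg, hdeg, hlim⟩
    have : deg = D := funext fun n => (hD n).2 _ (hdeg n)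
    subst this
    exact tendsto_nhds_unique hlim hδ
  refine ⟨δ, ⟨D, fun n => (hD n).1, hδ⟩, huniq, fun ε hε => ?_⟩
  have hδ1 : 1 ≤ δ := by
    refine ge_of_tendsto' hδ fun n => ?_
    have h1 : (1 : ℝ) ≤ D n := by exact_mod_cast hpos n
    exact Real.one_le_rpow h1 (by positivity)
  set a : ℝ := max (δ - ε / 2) (δ / 2) with ha
  have ha0 : 0 < a := lt_of_lt_of_le (by linarith) (le_max_right _ _)
  have haδ : a < δ := max_lt (by linarith) (by linarith)
  have haε : δ - ε < a := lt_of_lt_of_le (by linarith) (le_max_left _ _)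
  obtain ⟨n, hn, hgrow⟩ := growth hpos hδ ha0 haδ hγ N
  have hs : ∀ j : ℕ, ∃ s : MvPolynomial (Fin k) ℂ, s ≠ 0 ∧ ∀ t : Fin k → ℂ, eval t s ≠ 0 →
      ∀ G e, IsMember t F G e → RedDeg (iter G (n * j)) (D (n * j)) := fun j =>
    degree_spec F hF (n * j) (D (n * j)) (hD (n * j)).1
  choose s hs0 hs1 using hs
  refine ⟨∏ j ∈ Finset.range (N + 1), s j, Finset.prod_ne_zero_iff.mpr fun j _ => hs0 j, ?_⟩
  intro t G e δ' hG hδ' hle
  by_contra hq
  rw [map_prod] at hq
  have hsj : ∀ j < N + 1, eval t (s j) ≠ 0 := fun j hj =>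
    Finset.prod_ne_zero_iff.mp hq j (Finset.mem_range.mpr hj)
  have hGd : IsDomRatMap G e := by
    obtain ⟨F', H, -, -, -, h⟩ := hG
    exact h
  obtain ⟨E, hEpos, hE, δG, hδG, hbound⟩ := hmain ℂ (e ^ n) (iter G n)
    (iter_hom e G hGd.homog n) (algInd_iter hGd.dominant n)
  obtain ⟨deg, hdeg, hlim⟩ := hδ'
  -- degrees of the iterates of `iter G n`
  have hE1 : ∀ j, E j = deg (n * j) := fun j =>
    ((hE j).2 _ (by rw [iter_iter]; exact hdeg (n * j))).symm
  have hE2 : ∀ j < N + 1, E j = D (n * j) := fun j hj =>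
    ((hE j).2 _ (by rw [iter_iter]; exact hs1 j t (hsj j hj) G e hG)).symm
  -- the dynamical degree of `iter G n`
  have hδn : δG = δ' ^ n := by
    have h1 : Tendsto (fun j : ℕ => n * j) atTop atTop := by
      have : Tendsto (fun j : ℕ => j * n) atTop atTop := tendsto_id.atTop_mul_const' hn
      simpa [Nat.mul_comm] using this
    have h2 := (hlim.comp h1).pow n
    refine tendsto_nhds_unique hδG (h2.congr fun j => ?_)
    simp only [Function.comp_apply]
    have h3 : (0 : ℝ) ≤ deg (n * j) := by positivity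
    rw [hE1 j, ← Real.rpow_natCast, ← Real.rpow_mul h3]
    congr 1
    have hn' : (n : ℝ) ≠ 0 := by exact_mod_cast hn.ne'
    push_cast
    rcases Nat.eq_zero_or_pos j with rfl | hj
    · simp
    · have hj' : (j : ℝ) ≠ 0 := by exact_mod_cast hj.ne'
      field_simp
  have hδ'0 : 0 ≤ δ' := ge_of_tendsto' hlim fun n => by positivity
  have h4 := hbound (a ^ n / γ) (fun j hj => by
    rw [hE2 j (by omega), hE2 (j + 1) (by omega)]
    have h5 := hgrow j hj
    rw [div_mul_eq_mul_div, div_le_iff₀ hγ]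
    linarith)
  rw [mul_div_cancel₀ _ hγ.ne', hδn] at h4
  have h6 : a ≤ δ' := by
    by_contra hlt
    push Not at hlt
    exact absurd h4 (not_le.mpr (pow_lt_pow_left₀ hlt hδ'0 hn.ne'))
  linarith

end Pool.Agent.Run7.h942.DD
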