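import Pool.Agent.Helper993.CS.Z5
import Pool.Agent.Run7.h942.DD.Cop

/-! Families of rational maps depending rationally on parameters, and specialisation of the degrees
of iterates. -/

namespace Pool.Agent.Run7.h942.DD

open MvPolynomial Filter Topology Pool.Agent.Helper993.CS

/-- A dominant rational self-map of `P^N` in reduced form: the coordinates are homogeneous of one
common degree `d`, have no nonconstant common factor (every common divisor is a unit) and satisfy no
nontrivial polynomial relation. -/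
structure IsDomRatMap {K : Type} [Field K] {N : ℕ}
    (F : Fin (N + 1) → MvPolynomial (Fin (N + 1)) K) (d : ℕ) : Prop where
  homog : ∀ i, (F i).IsHomogeneous d
  coprime : ∀ g : MvPolynomial (Fin (N + 1)) K, (∀ i, g ∣ F i) → IsUnit g
  dominant : AlgebraicIndependent K F

/-- `δ` is the dynamical degree of `F`: `deg n` is the degree of the `n`-th iterate after removing
common factors, and `deg(n)^(1/n) → δ`. -/
def HasDynDeg {K : Type} [Field K] {N : ℕ}
    (F : Fin (N + 1) → MvPolynomial (Fin (N + 1)) K) (δ : ℝ) : Prop :=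
  ∃ deg : ℕ → ℕ, (∀ n, RedDeg (iter F n) (deg n)) ∧
    Tendsto (fun n : ℕ => (deg n : ℝ) ^ ((1 : ℝ) / n)) atTop (𝓝 δ)

/-- the field `ℂ(T_1,…,T_k)` -/
abbrev CT (k : ℕ) : Type := FractionRing (MvPolynomial (Fin k) ℂ)

/-- the rational function `c ∈ ℂ(T)` is defined at `t ∈ ℂ^k` and has the value `z` there -/
def ValueAt {k : ℕ} (t : Fin k → ℂ) (c : CT k) (z : ℂ) : Prop :=
  ∃ a b : MvPolynomial (Fin k) ℂ, eval t b ≠ 0 ∧
    c = algebraMap (MvPolynomial (Fin k) ℂ) (CT k) a / algebraMap (MvPolynomial (Fin k) ℂ) (CT k) b ∧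
    z = eval t a / eval t b

/-- all coefficients of the coordinates of the family `F` are defined at `t`, and `F'` is the tuple
with the specialised coefficients -/
def Specializes {k N : ℕ} (t : Fin k → ℂ)
    (F : Fin (N + 1) → MvPolynomial (Fin (N + 1)) (CT k))
    (F' : Fin (N + 1) → MvPolynomial (Fin (N + 1)) ℂ) : Prop :=
  ∀ i m, ValueAt t (coeff m (F i)) (coeff m (F' i))

/-- the specialised map `f_t` (common factors removed) is the dominant rational map `G` -/
def IsMember {k N : ℕ} (t : Fin k → ℂ)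
    (F : Fin (N + 1) → MvPolynomial (Fin (N + 1)) (CT k))
    (G : Fin (N + 1) → MvPolynomial (Fin (N + 1)) ℂ) (e : ℕ) : Prop :=
  ∃ (F' : Fin (N + 1) → MvPolynomial (Fin (N + 1)) ℂ) (H : MvPolynomial (Fin (N + 1)) ℂ),
    Specializes t F F' ∧ H ≠ 0 ∧ (∀ i, F' i = H * G i) ∧ IsDomRatMap G e

/-- iterates over a commutative ring -/
noncomputable def iterR {K : Type} [CommRing K] {N : ℕ}
    (f : Fin (N + 1) → MvPolynomial (Fin (N + 1)) K) :
    ℕ → Fin (N + 1) → MvPolynomial (Fin (N + 1)) K
  | 0 => fun i => X i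
  | n + 1 => fun i => bind₁ (iterR f n) (f i)

theorem iterR_eq {K : Type} [Field K] {N : ℕ}
    (f : Fin (N + 1) → MvPolynomial (Fin (N + 1)) K) (n : ℕ) : iterR f n = iter f n := by
  induction n with
  | zero => rfl
  | succ n ih => funext i; simp only [iterR, iter, ih]

theorem iterR_map {K L : Type} [CommRing K] [CommRing L] (θ : K →+* L) {N : ℕ}
    (f : Fin (N + 1) → MvPolynomial (Fin (N + 1)) K) (n : ℕ) (i : Fin (N + 1)) :
    map θ (iterR f n i) = iterR (fun i => map θ (f i)) n i := by
  induction n generalizing i with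
  | zero => simp [iterR]
  | succ n ih =>
    simp only [iterR]
    rw [map_bind₁]
    congr 2
    funext j
    exact ih j

theorem scale_ring {σ A : Type} [CommRing A] {P : MvPolynomial σ A} {e : ℕ}
    (hP : P.IsHomogeneous e) (c : A) (g : σ → MvPolynomial σ A) :
    bind₁ (fun i => C c * g i) P = C (c ^ e) * bind₁ g P := by
  rw [bind₁, aeval_def, bind₁, aeval_def, eval₂_eq, eval₂_eq, Finset.mul_sum]
  apply Finset.sum_congr rfl
  intro s hs
  have h1 : ∏ i ∈ s.support, (C c : MvPolynomial σ A) ^ (s i) = C (c ^ e) := by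
    rw [Finset.prod_pow_eq_pow_sum, C_pow]
    congr 1
    exact (hP.degree_eq_sum_deg_support hs).symm
  simp only [mul_pow, Finset.prod_mul_distrib]
  rw [h1]
  ring

theorem iterR_scale {K : Type} [CommRing K] {N : ℕ}
    (f : Fin (N + 1) → MvPolynomial (Fin (N + 1)) K) {d : ℕ} (hf : ∀ i, (f i).IsHomogeneous d)
    (c : K) (n : ℕ) : ∃ e : ℕ, ∀ i, iterR (fun i => C c * f i) n i = C (c ^ e) * iterR f n i := by
  induction n with
  | zero => exact ⟨0, fun i => by simp [iterR]⟩
  | succ n ih =>
    obtain ⟨e, he⟩ := ih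
    refine ⟨1 + e * d, fun i => ?_⟩
    simp only [iterR]
    rw [map_mul, show iterR (fun i => C c * f i) n = fun i => C (c ^ e) * iterR f n i from
      funext he, scale_ring (hf i), bind₁_C_right, pow_add, pow_one, C_mul, ← pow_mul]
    ring

theorem algInd_iter {K : Type} [Field K] {N : ℕ}
    {f : Fin (N + 1) → MvPolynomial (Fin (N + 1)) K} (hf : AlgebraicIndependent K f) (n : ℕ) :
    AlgebraicIndependent K (iter f n) := by
  induction n with
  | zero =>
    have : iter f 0 = X := rfl
    rw [this]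
    exact algebraicIndependent_X _ _
  | succ n ih =>
    have h1 : (aeval (iter f (n + 1)) : MvPolynomial (Fin (N + 1)) K →ₐ[K] _) =
        (aeval (iter f n)).comp (aeval f) := by
      apply MvPolynomial.algHom_ext
      intro i
      rw [aeval_X, AlgHom.comp_apply, aeval_X]
      rfl
    unfold AlgebraicIndependent at *
    rw [h1]
    exact ih.comp hf

theorem iter_iter {K : Type} [Field K] {N : ℕ}
    (f : Fin (N + 1) → MvPolynomial (Fin (N + 1)) K) (n j : ℕ) :
    iter (iter f n) j = iter f (n * j) := by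
  have add : ∀ a b, ∀ i, iter f (a + b) i = bind₁ (iter f b) (iter f a i) := by
    intro a b
    induction a with
    | zero => intro i; simp [iter]
    | succ a ih =>
      intro i
      rw [Nat.add_right_comm]
      simp only [iter]
      rw [bind₁_bind₁]
      congr 2
      funext j
      exact ih j
  induction j with
  | zero => rfl
  | succ j ih =>
    funext i
    rw [Nat.mul_succ, show n * j + n = n + n * j from Nat.add_comm _ _, add]
    simp only [iter]
    rw [ih]

theorem RedDeg.scale {K : Type} [Field K] {N : ℕ} {P : Fin (N + 1) → MvPolynomial (Fin (N + 1)) K}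
    {d : ℕ} {c : K} (hc : c ≠ 0) (h : RedDeg (fun i => C c * P i) d) : RedDeg P d := by
  obtain ⟨H, G, hH, hP, hG, hcop⟩ := h
  refine ⟨C c⁻¹ * H, G, mul_ne_zero (by simpa using hc) hH, fun i => ?_, hG, hcop⟩
  rw [mul_assoc, ← hP i, ← mul_assoc, ← C_mul, inv_mul_cancel₀ hc, C_1, one_mul]

/-- degrees of iterates specialise outside a proper closed set -/
theorem degree_spec {k N : ℕ} (F : Fin (N + 1) → MvPolynomial (Fin (N + 1)) (CT k)) {d : ℕ}
    (hF : IsDomRatMap F d) (m D : ℕ) (hD : RedDeg (iter F m) D) :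
    ∃ s : MvPolynomial (Fin k) ℂ, s ≠ 0 ∧ ∀ t : Fin k → ℂ, eval t s ≠ 0 →
      ∀ G e, IsMember t F G e → RedDeg (iter G m) D := by
  classical
  set S := MvPolynomial (Fin k) ℂ with hS
  have hinj : Function.Injective (algebraMap S (CT k)) := IsFractionRing.injective _ _
  have hmi : Function.Injective (map (σ := Fin (N + 1)) (algebraMap S (CT k))) :=
    map_injective _ hinj
  obtain ⟨b, Fh, hb, hFh⟩ := clear_fin (S := S) F
  obtain ⟨H, Gm, hH, hP, hGm, hcop⟩ := hD
  obtain ⟨h, Hh, hh, hHh⟩ := clear (S := S) H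
  obtain ⟨g, Gh, hg, hGh⟩ := clear_fin (S := S) Gm
  have hb' : algebraMap S (CT k) b ≠ 0 := (map_ne_zero_iff _ hinj).mpr hb
  have hh' : algebraMap S (CT k) h ≠ 0 := (map_ne_zero_iff _ hinj).mpr hh
  have hg' : algebraMap S (CT k) g ≠ 0 := (map_ne_zero_iff _ hinj).mpr hg
  -- coprimality of `Fh` and `Gh`
  have cop : ∀ {A : Fin (N + 1) → MvPolynomial (Fin (N + 1)) (CT k)}
      {Ah : Fin (N + 1) → MvPolynomial (Fin (N + 1)) S} {c : CT k}, c ≠ 0 →
      (∀ i, map (algebraMap S (CT k)) (Ah i) = C c * A i) → (∀ q, (∀ i, q ∣ A i) → IsUnit q) →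
      ∀ q, (∀ i, q ∣ map (algebraMap S (CT k)) (Ah i)) → IsUnit q := by
    intro A Ah c hc h1 h2 q hq
    apply h2
    intro i
    have := hq i
    rw [h1 i] at this
    have hu : IsUnit (C c : MvPolynomial (Fin (N + 1)) (CT k)) :=
      (isUnit_iff_ne_zero.mpr hc).map C
    exact (hu.dvd_mul_left).mp this
  obtain ⟨s1, hs1, hs1'⟩ := generic_coprime Fh (cop hb' hFh hF.coprime)
  obtain ⟨s2, hs2, hs2'⟩ := generic_coprime Gh (cop hg' hGh hcop)
  have hHh0 : Hh ≠ 0 := by
    rintro rfl
    rw [map_zero] at hHh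
    exact mul_ne_zero (by simpa using hh') hH hHh.symm
  obtain ⟨u, hu⟩ := exists_coeff_ne_zero hHh0
  -- homogeneity
  have hom : ∀ {A : MvPolynomial (Fin (N + 1)) (CT k)} {Ah : MvPolynomial (Fin (N + 1)) S}
      {c : CT k} {n : ℕ}, map (algebraMap S (CT k)) Ah = C c * A → A.IsHomogeneous n →
      Ah.IsHomogeneous n := by
    intro A Ah c n h1 h2
    have h3 : (map (algebraMap S (CT k)) Ah).IsHomogeneous n := by
      rw [h1]; exact h2.C_mul c
    intro v hv
    apply h3
    rw [coeff_map]
    exact (map_ne_zero_iff _ hinj).mpr hv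
  have hFhd : ∀ i, (Fh i).IsHomogeneous d := fun i => hom (hFh i) (hF.homog i)
  have hGhd : ∀ i, (Gh i).IsHomogeneous D := fun i => hom (hGh i) (hGm i)
  -- the identity over `S`
  obtain ⟨e, he⟩ := iterR_scale F hF.homog (algebraMap S (CT k) b) m
  have hid : ∀ i, C (g * h) * iterR Fh m i = C (b ^ e) * Hh * Gh i := by
    intro i
    apply hmi
    have h1 : (fun i => map (algebraMap S (CT k)) (Fh i)) =
        fun i => C (algebraMap S (CT k) b) * F i := funext hFh
    have hL : map (algebraMap S (CT k)) (C (g * h) * iterR Fh m i) =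
        C (algebraMap S (CT k) g * algebraMap S (CT k) h) *
          (C ((algebraMap S (CT k) b) ^ e) * (H * Gm i)) := by
      rw [map_mul, map_C, iterR_map, h1, he i, iterR_eq, hP i, map_mul (algebraMap S (CT k))]
    have hR : MvPolynomial.map (algebraMap S (CT k)) (C (b ^ e) * Hh * Gh i) =
        C ((algebraMap S (CT k) b) ^ e) * (C (algebraMap S (CT k) h) * H) *
          (C (algebraMap S (CT k) g) * Gm i) := by
      rw [map_mul, map_mul, map_C, hHh, hGh i, map_pow]
    rw [hL, hR, C_mul]
    ring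
  refine ⟨b * g * h * s1 * s2 * coeff u Hh, ?_, ?_⟩
  · exact mul_ne_zero (mul_ne_zero (mul_ne_zero (mul_ne_zero (mul_ne_zero hb hg) hh) hs1) hs2) hu
  · rintro t ht G e' ⟨F', H', hsp, hH', hF', hG⟩
    simp only [map_mul] at ht
    have ht6 : eval t (coeff u Hh) ≠ 0 := fun h0 => ht (by rw [h0]; ring)
    have ht5 : eval t s2 ≠ 0 := fun h0 => ht (by rw [h0]; ring)
    have ht4 : eval t s1 ≠ 0 := fun h0 => ht (by rw [h0]; ring)
    have ht3 : eval t h ≠ 0 := fun h0 => ht (by rw [h0]; ring)
    have ht2 : eval t g ≠ 0 := fun h0 => ht (by rw [h0]; ring)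
    have ht1 : eval t b ≠ 0 := fun h0 => ht (by rw [h0]; ring)
    -- the specialised tuple
    have hFt : ∀ i, map (eval t) (Fh i) = C (eval t b) * F' i := by
      intro i
      ext v
      rw [coeff_map, coeff_C_mul]
      obtain ⟨α, β, hβ, h1, h2⟩ := hsp i v
      have hβ0 : β ≠ 0 := by rintro rfl; rw [map_zero] at hβ; exact hβ rfl
      have hβ' : algebraMap S (CT k) β ≠ 0 := (map_ne_zero_iff _ hinj).mpr hβ0
      have h3 := congrArg (coeff v) (hFh i)
      rw [coeff_map, coeff_C_mul, h1] at h3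
      have h4 : coeff v (Fh i) * β = b * α := by
        apply hinj
        rw [map_mul, map_mul, h3, mul_assoc]
        congr 1
        exact div_mul_cancel₀ _ hβ'
      have h5 := congrArg (eval t) h4
      rw [map_mul, map_mul] at h5
      rw [h2]
      field_simp
      linear_combination h5
    -- `H'` is a unit
    have hred : ∀ q, (∀ i, q ∣ map (eval t) (Fh i)) → IsUnit q := hs1' (eval t) ht4
    have hH'u : IsUnit H' := by
      apply hred
      intro i
      rw [hFt i, hF' i]
      exact ⟨C (eval t b) * G i, by ring⟩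
    obtain ⟨c, hc, hHc⟩ : ∃ c : ℂ, c ≠ 0 ∧ H' = C c := by
      rw [MvPolynomial.isUnit_iff_eq_C_of_isReduced] at hH'u
      obtain ⟨c, hc, hHc⟩ := hH'u
      exact ⟨c, hc.ne_zero, hHc⟩
    have hFG : (fun i => map (eval t) (Fh i)) = fun i => C (eval t b * c) * G i := by
      funext i
      rw [hFt i, hF' i, hHc, C_mul]
      ring
    obtain ⟨e2, he2⟩ := iterR_scale G hG.homog (eval t b * c) m
    apply RedDeg.scale (c := (eval t b * c) ^ e2) (pow_ne_zero _ (mul_ne_zero ht1 hc))
    have h1 : (fun i => C ((eval t b * c) ^ e2) * iter G m i) =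
        fun i => map (eval t) (iterR Fh m i) := by
      funext i
      rw [iterR_map, hFG, he2 i, iterR_eq]
    rw [h1]
    refine ⟨C ((eval t g * eval t h)⁻¹ * eval t b ^ e) * map (eval t) Hh,
      fun i => map (eval t) (Gh i), ?_, ?_, fun i => (hGhd i).map _, hs2' (eval t) ht5⟩
    · refine mul_ne_zero ?_ ?_
      · rw [Ne, C_eq_zero]
        exact mul_ne_zero (inv_ne_zero (mul_ne_zero ht2 ht3)) (pow_ne_zero _ ht1)
      · intro h0
        apply ht6
        rw [← coeff_map, h0, coeff_zero]
    · intro i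
      have h2 : (C (eval t g * eval t h) : MvPolynomial (Fin (N + 1)) ℂ) *
          MvPolynomial.map (eval t) (iterR Fh m i) =
          C (eval t b ^ e) * MvPolynomial.map (eval t) Hh * MvPolynomial.map (eval t) (Gh i) := by
        have h6 := congrArg (MvPolynomial.map (eval t)) (hid i)
        simpa only [map_mul, map_C, map_pow] using h6
      have h3 : (C (eval t g * eval t h) : MvPolynomial (Fin (N + 1)) ℂ) *
          MvPolynomial.map (eval t) (iterR Fh m i) = C (eval t g * eval t h) *
          (C ((eval t g * eval t h)⁻¹ * eval t b ^ e) * MvPolynomial.map (eval t) Hh *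
            MvPolynomial.map (eval t) (Gh i)) := by
        have h5 : (C (eval t g * eval t h) : MvPolynomial (Fin (N + 1)) ℂ) *
            C ((eval t g * eval t h)⁻¹ * eval t b ^ e) = C (eval t b ^ e) := by
          rw [← C_mul, ← mul_assoc, mul_inv_cancel₀ (mul_ne_zero ht2 ht3), one_mul]
        rw [h2, ← h5]
        ring
      have h4 : (C (eval t g * eval t h) : MvPolynomial (Fin (N + 1)) ℂ) ≠ 0 := by
        rw [Ne, C_eq_zero]; exact mul_ne_zero ht2 ht3
      exact mul_left_cancel₀ h4 h3

end Pool.Agent.Run7.h942.DD
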